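import Pool.Agent.Helper720.CurveForms

set_option autoImplicit false

open MvPolynomial

namespace Pool.Agent.Results.MP_71c7f5_ag.IntegralCurve

open Pool.Agent.Helper720.Curve

variable {K : Type*} [Field K]

/-- Modulo three independent linear forms, the degree five part of the ideal of the curve does
not fill up everything. -/
lemma nonsurj {u : Fin 3 → Fin 5 → K} (hu : LinearIndependent K u) :
    ∃ g : MvPolynomial (Fin 5) K, g.IsHomogeneous 5 ∧
      ∀ i ∈ Ic K, ∀ a : Fin 3 → MvPolynomial (Fin 5) K, g ≠ i + ∑ k, lf (u k) * a k := by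
  by_contra hcon
  push Not at hcon
  obtain ⟨ψ, hψ, a, b, ha, hb⟩ := exists_line hu
  obtain ⟨t, t', ht, ht', hli⟩ := exists_pair hu
  obtain ⟨p₀, hp₀⟩ := exists_coeff_Fc ht ht' hli
  set F := Fc (∑ i, t i • u i) (∑ i, t' i • u i) with hF
  -- the images of the minors
  set v : Fin 6 → Polynomial K := fun p => ψ (Mi p) with hv
  have hψF : ψ F = 0 := by
    rw [hF]
    unfold Fc
    rw [map_sub, map_mul, map_mul, lf_sum, lf_sum, map_sum, map_sum]
    simp only [map_mul, hψ, mul_zero, Finset.sum_const_zero, zero_mul, sub_zero]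
  have hFe := five_eq (Fc_hom _ _) (Fc_mem ht ht')
  rw [← hF] at hFe
  have hrel : ∑ p, F.coeff (mα p) • v p = 0 := by
    rw [← hψF]
    conv_rhs => rw [hFe]
    rw [map_sum]
    refine Finset.sum_congr rfl fun p _ => ?_
    rw [map_mul, hv, Algebra.smul_def]
    congr 1
    exact (ψ.commutes _).symm
  have hdep : ¬ LinearIndependent K v := by
    intro h
    exact hp₀ (Fintype.linearIndependent_iff.1 h _ hrel p₀)
  have hfin : Module.finrank K (Submodule.span K (Set.range v)) < 6 := by
    have h1 : Module.finrank K (Submodule.span K (Set.range v)) ≤ 6 := by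
      have := finrank_range_le_card (R := K) v
      rwa [Fintype.card_fin] at this
    refine lt_of_le_of_ne h1 ?_
    intro h2
    apply hdep
    rw [linearIndependent_iff_card_eq_finrank_span, Fintype.card_fin]
    exact h2.symm
  -- all powers up to the fifth are in the span
  have hpow : ∀ k : Fin 6, (Polynomial.X : Polynomial K) ^ (k : ℕ) ∈
      Submodule.span K (Set.range v) := by
    intro k
    have hg : (lf a ^ (5 - (k : ℕ)) * lf b ^ (k : ℕ)).IsHomogeneous 5 := by
      have h1 := ((lf_hom a).pow (5 - (k : ℕ))).mul ((lf_hom b).pow (k : ℕ))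
      have h2 : 1 * (5 - (k : ℕ)) + 1 * (k : ℕ) = 5 := by omega
      rwa [h2] at h1
    obtain ⟨i, hi, c, hc⟩ := hcon _ hg
    have hc5 : lf a ^ (5 - (k : ℕ)) * lf b ^ (k : ℕ) =
        homogeneousComponent 5 i + ∑ j, lf (u j) * homogeneousComponent 4 (c j) := by
      conv_lhs => rw [← homogeneousComponent_eq_self hg, hc]
      rw [map_add, map_sum]
      congr 1
      refine Finset.sum_congr rfl fun j _ => ?_
      exact comp_mul (lf_hom _) _ 4
    have h1 := congrArg ψ hc5
    rw [map_add, map_sum, map_mul, map_pow, map_pow, ha, hb, one_pow, one_mul] at h1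
    simp only [map_mul, hψ, zero_mul, Finset.sum_const_zero, add_zero] at h1
    rw [h1, five_eq (homogeneousComponent_isHomogeneous 5 i) (component_mem hi 5), map_sum]
    refine Submodule.sum_mem _ fun p _ => ?_
    rw [map_mul]
    have h2 : ψ (C (coeff (mα p) (homogeneousComponent 5 i))) * ψ (Mi p) =
        (coeff (mα p) (homogeneousComponent 5 i)) • v p := by
      rw [hv, Algebra.smul_def]
      congr 1
      exact ψ.commutes _
    rw [h2]
    exact Submodule.smul_mem _ _ (Submodule.subset_span ⟨p, rfl⟩)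
  have hli6 : LinearIndependent K (fun k : Fin 6 =>
      (⟨(Polynomial.X : Polynomial K) ^ (k : ℕ), hpow k⟩ : Submodule.span K (Set.range v))) := by
    apply LinearIndependent.of_comp (Submodule.span K (Set.range v)).subtype
    have h1 := (Polynomial.basisMonomials K).linearIndependent
    have h2 := h1.comp (fun k : Fin 6 => (k : ℕ)) Fin.val_injective
    convert! h2 using 1
    ext k
    simp [Polynomial.coe_basisMonomials, Polynomial.X_pow_eq_monomial]
  have hfd : FiniteDimensional K (Submodule.span K (Set.range v)) :=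
    FiniteDimensional.span_of_finite K (Set.finite_range v)
  have h6 := hli6.fintype_card_le_finrank
  rw [Fintype.card_fin] at h6
  omega

lemma mem_J {ℓ₁ ℓ₂ f : MvPolynomial (Fin 5) K} : f ∈ Ic K ⊔ Ideal.span {ℓ₁, ℓ₂} ↔
    ∃ i ∈ Ic K, ∃ a b, f = i + (ℓ₁ * a + ℓ₂ * b) := by
  rw [Submodule.mem_sup]
  constructor
  · rintro ⟨i, hi, g, hg, rfl⟩
    obtain ⟨a, b, rfl⟩ := Ideal.mem_span_pair.1 hg
    exact ⟨i, hi, a, b, by ring⟩
  · rintro ⟨i, hi, a, b, rfl⟩
    exact ⟨i, hi, ℓ₁ * a + ℓ₂ * b, Ideal.mem_span_pair.2 ⟨a, b, by ring⟩, rfl⟩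

/-- The two linear forms have linearly independent coefficient vectors. -/
lemma indep_of_regular {a b : Fin 5 → K} (h : IsRegularPair (Ic K) (lf a) (lf b)) :
    LinearIndependent K ![a, b] := by
  rw [LinearIndependent.pair_iff]
  intro s t hst
  have h1 : C s * lf a + C t * lf b = 0 := by
    rw [← lf_smul, ← lf_smul, ← lf_add, hst]
    unfold lf
    simp
  have htop : ∀ J : Ideal (MvPolynomial (Fin 5) K), J ≤ Ic K ⊔ Ideal.span {lf a, lf b} →
      (1 : MvPolynomial (Fin 5) K) ∉ J := by
    intro J hJ hmem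
    exact h.ne_top ((Ideal.eq_top_iff_one _).2 (hJ hmem))
  have ht : t = 0 := by
    by_contra ht
    have h2 : lf b * 1 ∈ Ic K ⊔ Ideal.span {lf a} := by
      apply Submodule.mem_sup_right
      rw [Ideal.mem_span_singleton']
      refine ⟨- C (t⁻¹ * s), ?_⟩
      have h3 : lf b = C t⁻¹ * (C t * lf b) := by
        rw [← mul_assoc, ← map_mul, inv_mul_cancel₀ ht, map_one, one_mul]
      have h4 : C t * lf b = - (C s * lf a) := by linear_combination h1
      rw [mul_one]
      conv_rhs => rw [h3, h4]
      rw [map_mul]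
      ring
    exact htop _ (sup_le_sup_left (Ideal.span_mono (by simp)) _) (h.regular₂ 1 h2)
  refine ⟨?_, ht⟩
  by_contra hs
  have h2 : lf a * 1 ∈ Ic K := by
    have h3 : lf a = 0 := by
      have h4 : lf a = C s⁻¹ * (C s * lf a) := by
        rw [← mul_assoc, ← map_mul, inv_mul_cancel₀ hs, map_one, one_mul]
      rw [h4]
      have h5 : C s * lf a = 0 := by
        rw [ht, map_zero, zero_mul, add_zero] at h1
        exact h1
      rw [h5, mul_zero]
    rw [h3, zero_mul]
    exact Ideal.zero_mem _
  exact htop _ le_sup_left (h.regular₁ 1 h2)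

/-- The degree five part of the ideal meets the ideal of a regular sequence trivially. -/
lemma inter_zero {ℓ₁ ℓ₂ : MvPolynomial (Fin 5) K} (h : IsRegularPair (Ic K) ℓ₁ ℓ₂)
    {F x y : MvPolynomial (Fin 5) K} (hF : F ∈ Ic K) (hx : x.IsHomogeneous 4)
    (hy : y.IsHomogeneous 4) (hFe : F = ℓ₁ * x + ℓ₂ * y) : F = 0 := by
  have h1 : ℓ₂ * y ∈ Ic K ⊔ Ideal.span {ℓ₁} := by
    have h2 : ℓ₂ * y = F + (-x) * ℓ₁ := by rw [hFe]; ring
    rw [h2]
    exact Submodule.add_mem_sup hF (Ideal.mem_span_singleton'.2 ⟨_, rfl⟩)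
  obtain ⟨i, hi, g, hg, hy2⟩ := Submodule.mem_sup.1 (h.regular₂ y h1)
  obtain ⟨z, rfl⟩ := Ideal.mem_span_singleton'.1 hg
  have hy3 : y = ℓ₁ * homogeneousComponent 3 z := by
    have h3 : homogeneousComponent 4 y = homogeneousComponent 4 i +
        ℓ₁ * homogeneousComponent 3 z := by
      rw [← hy2, map_add, mul_comm z ℓ₁, comp_mul h.linear₁]
    rw [homogeneousComponent_eq_self hy,
      four_zero (homogeneousComponent_isHomogeneous 4 i) (component_mem hi 4), zero_add] at h3
    exact h3
  have h4 : ℓ₁ * (x + ℓ₂ * homogeneousComponent 3 z) ∈ Ic K := by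
    have h5 : ℓ₁ * (x + ℓ₂ * homogeneousComponent 3 z) = F := by
      rw [hFe, hy3]
      ring
    rw [h5]
    exact hF
  have h6 := h.regular₁ _ h4
  have h7 : (x + ℓ₂ * homogeneousComponent 3 z).IsHomogeneous 4 := by
    have h8 := h.linear₂.mul (homogeneousComponent_isHomogeneous 3 z)
    exact hx.add h8
  have h9 := four_zero h7 h6
  rw [hFe, hy3]
  have h10 : ℓ₁ * x + ℓ₂ * (ℓ₁ * homogeneousComponent 3 z) =
      ℓ₁ * (x + ℓ₂ * homogeneousComponent 3 z) := by ring
  rw [h10, h9, mul_zero]

/-- No Artinian reduction of the curve has the weak Lefschetz property. -/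
lemma not_wlp {ℓ₁ ℓ₂ : MvPolynomial (Fin 5) K} (h : IsRegularPair (Ic K) ℓ₁ ℓ₂) :
    ¬ HasWLP (Ic K ⊔ Ideal.span {ℓ₁, ℓ₂}) := by
  rintro ⟨L, hL, hi⟩
  obtain ⟨a, rfl⟩ := exists_lf h.linear₁
  obtain ⟨b, rfl⟩ := exists_lf h.linear₂
  obtain ⟨c, rfl⟩ := exists_lf hL
  have hab := indep_of_regular h
  -- the degree five part of the quotient is not zero
  have hne : ∃ g : MvPolynomial (Fin 5) K, g.IsHomogeneous 5 ∧
      g ∉ Ic K ⊔ Ideal.span {lf a, lf b} := by
    obtain ⟨w, hw⟩ := exists_linearIndependent_snoc_of_lt_finrank hab (by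
      rw [Module.finrank_fin_fun]
      norm_num)
    obtain ⟨g, hg, hg2⟩ := nonsurj hw
    refine ⟨g, hg, ?_⟩
    intro hmem
    obtain ⟨i, hi, x, y, rfl⟩ := mem_J.1 hmem
    refine hg2 i hi ![x, y, 0] ?_
    rw [Fin.sum_univ_three]
    simp [Fin.snoc]
  by_cases hli : LinearIndependent K ![a, b, c]
  · rcases hi 4 with hinj | hsurj
    · obtain ⟨t, t', ht, ht', hlit⟩ := exists_pair hli
      obtain ⟨p₀, hp₀⟩ := exists_coeff_Fc ht ht' hlit
      set v := ∑ i, t i • (![a, b, c] : Fin 3 → Fin 5 → K) i with hv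
      set v' := ∑ i, t' i • (![a, b, c] : Fin 3 → Fin 5 → K) i with hv'
      have e1 : lf v = C (t 0) * lf a + C (t 1) * lf b + C (t 2) * lf c := by
        rw [hv, lf_sum, Fin.sum_univ_three]
        rfl
      have e2 : lf v' = C (t' 0) * lf a + C (t' 1) * lf b + C (t' 2) * lf c := by
        rw [hv', lf_sum, Fin.sum_univ_three]
        rfl
      have hF : Fc v v' = lf a * (C (t 0) * Gq v' - C (t' 0) * Gq v) +
          lf b * (C (t 1) * Gq v' - C (t' 1) * Gq v) +
          lf c * (C (t 2) * Gq v' - C (t' 2) * Gq v) := by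
        unfold Fc
        rw [e1, e2]
        ring
      have hhom : ∀ s s' : K, (C s * Gq v' - C s' * Gq v).IsHomogeneous 4 := by
        intro s s'
        have h1 := (isHomogeneous_C (Fin 5) s).mul (Gq_hom v')
        have h2 := (isHomogeneous_C (Fin 5) s').mul (Gq_hom v)
        rw [zero_add] at h1 h2
        exact h1.sub h2
      have hmem : C (t 2) * Gq v' - C (t' 2) * Gq v ∈ Ic K ⊔ Ideal.span {lf a, lf b} := by
        apply hinj _ (hhom _ _)
        rw [mem_J]
        refine ⟨Fc v v', Fc_mem ht ht', -(C (t 0) * Gq v' - C (t' 0) * Gq v),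
          -(C (t 1) * Gq v' - C (t' 1) * Gq v), ?_⟩
        rw [hF]
        ring
      obtain ⟨i, hiI, x, y, hxy⟩ := mem_J.1 hmem
      have hxy4 : C (t 2) * Gq v' - C (t' 2) * Gq v =
          lf a * homogeneousComponent 3 x + lf b * homogeneousComponent 3 y := by
        have h3 := congrArg (homogeneousComponent 4) hxy
        rw [homogeneousComponent_eq_self (hhom _ _), map_add, map_add, comp_mul (lf_hom a),
          comp_mul (lf_hom b),
          four_zero (homogeneousComponent_isHomogeneous 4 i) (component_mem hiI 4),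
          zero_add] at h3
        exact h3
      have hF0 : Fc v v' = 0 := by
        apply inter_zero h (Fc_mem ht ht')
          (x := (C (t 0) * Gq v' - C (t' 0) * Gq v) + lf c * homogeneousComponent 3 x)
          (y := (C (t 1) * Gq v' - C (t' 1) * Gq v) + lf c * homogeneousComponent 3 y)
        · exact (hhom _ _).add ((lf_hom c).mul (homogeneousComponent_isHomogeneous 3 x))
        · exact (hhom _ _).add ((lf_hom c).mul (homogeneousComponent_isHomogeneous 3 y))
        · rw [hF, hxy4]
          ring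
      rw [hF0, coeff_zero] at hp₀
      exact hp₀ rfl
    · obtain ⟨g, hg, hg2⟩ := nonsurj hli
      obtain ⟨f, _, hf⟩ := hsurj g hg
      obtain ⟨i, hiI, x, y, hxy⟩ := mem_J.1 hf
      refine hg2 i hiI ![x, y, f] ?_
      rw [Fin.sum_univ_three]
      simp only [Matrix.cons_val_zero, Matrix.cons_val_one, Matrix.cons_val]
      linear_combination hxy
  · -- `L` is zero in the quotient
    have hLJ : ∀ f, lf c * f ∈ Ic K ⊔ Ideal.span {lf a, lf b} := by
      have h1 : ∃ s t : K, c = s • a + t • b := by
        have h2 : c ∈ Submodule.span K (Set.range ![a, b]) := by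
          by_contra hc
          apply hli
          have h3 := linearIndependent_finSnoc.2 ⟨hab, hc⟩
          convert! h3 using 1
          ext i
          fin_cases i <;> rfl
        rw [Matrix.range_cons, Matrix.range_cons, Matrix.range_empty, Set.union_empty] at h2
        rw [Set.singleton_union, Submodule.mem_span_pair] at h2
        obtain ⟨s, t, hst⟩ := h2
        exact ⟨s, t, hst.symm⟩
      obtain ⟨s, t, rfl⟩ := h1
      intro f
      rw [mem_J]
      refine ⟨0, Ideal.zero_mem _, C s * f, C t * f, ?_⟩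
      rw [lf_add, lf_smul, lf_smul]
      ring
    obtain ⟨g, hg, hg2⟩ := hne
    rcases hi 4 with hinj | hsurj
    · apply hg2
      rw [g.as_sum]
      refine Ideal.sum_mem _ fun m hm => ?_
      have hd : m.degree = 5 := by
        have h1 := hg (mem_support_iff.1 hm)
        rw [Finsupp.degree_eq_weight_one]
        exact h1
      obtain ⟨j, hj⟩ : ∃ j, m j ≠ 0 := by
        by_contra hcon
        push Not at hcon
        have : m = 0 := by
          ext j
          exact hcon j
        rw [this, map_zero] at hd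
        omega
      have hle : Finsupp.single j 1 ≤ m := by
        rw [Finsupp.single_le_iff]
        omega
      obtain ⟨r, rfl⟩ := exists_add_of_le hle
      rw [map_add, Finsupp.degree_single] at hd
      have h2 : monomial (Finsupp.single j 1 + r) (coeff (Finsupp.single j 1 + r) g) =
          X j * monomial r (coeff (Finsupp.single j 1 + r) g) := by
        rw [X, monomial_mul, one_mul]
      rw [h2]
      apply Ideal.mul_mem_left
      exact hinj _ (isHomogeneous_monomial _ (by omega)) (hLJ _)
    · obtain ⟨f, _, hf⟩ := hsurj g hg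
      apply hg2
      have h1 : g = (g - lf c * f) + lf c * f := by ring
      rw [h1]
      exact Ideal.add_mem _ hf (hLJ f)

/-- Over every field `K` there is an integral arithmetically Cohen-Macaulay curve in projective
four-space such that no Artinian reduction of it has the weak Lefschetz property; in particular
none has the strong Lefschetz property. -/
theorem result (K : Type*) [Field K] :
    ∃ I : Ideal (MvPolynomial (Fin 5) K), IsIntegralACMCurve I ∧
      ∀ ℓ₁ ℓ₂ : MvPolynomial (Fin 5) K, IsRegularPair I ℓ₁ ℓ₂ →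
        ¬ HasWLP (I ⊔ Ideal.span {ℓ₁, ℓ₂}) ∧ ¬ HasSLP (I ⊔ Ideal.span {ℓ₁, ℓ₂}) :=
  ⟨Ic K, Ic_curve, fun _ _ h => ⟨not_wlp h, fun hs => not_wlp h hs.hasWLP⟩⟩

end Pool.Agent.Results.MP_71c7f5_ag.IntegralCurve
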